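import Pool.Agent.K1H12.SW.Stm

set_option autoImplicit false

namespace Pool.Agent.K1H74.HE

open Pool.Agent.K1H12.SW

section modules

variable {R : Type} [Ring R]

theorem ff_zero (M : Type) [AddCommGroup M] [Module R M] [Subsingleton M] : FF R M :=
  ⟨0, 0, 0, ⟨0⟩⟩

theorem fp_zero (M : Type) [AddCommGroup M] [Module R M] [Subsingleton M] : FP R M :=
  ⟨0, inferInstance, inferInstance⟩

theorem ff_iso (hT : TT R (FF R)) {M N : Type} [AddCommGroup M] [Module R M] [AddCommGroup N]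
    [Module R N] (e : M ≃ₗ[R] N) (h : FF R M) : FF R N := by
  refine (hT PUnit M N (0 : PUnit →ₗ[R] M) e.toLinearMap ?_ e.surjective ?_).2.2
    (ff_zero PUnit) h
  · intro a b _
    exact Subsingleton.elim _ _
  · intro x
    constructor
    · intro hx
      refine ⟨0, ?_⟩
      have : e x = e 0 := by rw [map_zero]; exact hx
      rw [e.injective this]; simp
    · rintro ⟨y, rfl⟩
      simp

theorem fp_iso (hT : TT R (FP R)) {M N : Type} [AddCommGroup M] [Module R M] [AddCommGroup N]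
    [Module R N] (e : M ≃ₗ[R] N) (h : FP R M) : FP R N := by
  refine (hT PUnit M N (0 : PUnit →ₗ[R] M) e.toLinearMap ?_ e.surjective ?_).2.2
    (fp_zero PUnit) h
  · intro a b _
    exact Subsingleton.elim _ _
  · intro x
    constructor
    · intro hx
      refine ⟨0, ?_⟩
      have : e x = e 0 := by rw [map_zero]; exact hx
      rw [e.injective this]; simp
    · rintro ⟨y, rfl⟩
      simp

end modules

section reps

variable {G : Type} [Group G] {V W U : Type} [AddCommGroup V] [AddCommGroup W] [AddCommGroup U]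

/-- the linear map over the group ring -/
noncomputable def tl (ρ : Representation ℤ G V) (σ : Representation ℤ G W) (f : V →ₗ[ℤ] W)
    (h : Eqv ρ σ f) : ρ.asModule →ₗ[MonoidAlgebra ℤ G] σ.asModule :=
  Representation.IntertwiningMap.equivLinearMapAsModule ρ σ
    (f.intertwiningMap_of_isIntertwiningMap ρ σ h)

theorem tl_inj {ρ : Representation ℤ G V} {σ : Representation ℤ G W} {f : V →ₗ[ℤ] W}
    (h : Eqv ρ σ f) (hf : Function.Injective f) : Function.Injective (tl ρ σ f h) := hf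

theorem tl_surj {ρ : Representation ℤ G V} {σ : Representation ℤ G W} {f : V →ₗ[ℤ] W}
    (h : Eqv ρ σ f) (hf : Function.Surjective f) : Function.Surjective (tl ρ σ f h) := hf

theorem tl_exact {ρ : Representation ℤ G V} {σ : Representation ℤ G W} {τ : Representation ℤ G U}
    {f : V →ₗ[ℤ] W} {g : W →ₗ[ℤ] U} (h : Eqv ρ σ f) (h' : Eqv σ τ g) (hfg : Function.Exact f g) :
    Function.Exact (tl ρ σ f h) (tl σ τ g h') := hfg

theorem iso_of {ρ : Representation ℤ G V} {σ : Representation ℤ G W} (h : IsoR ρ σ) :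
    Nonempty (ρ.asModule ≃ₗ[MonoidAlgebra ℤ G] σ.asModule) := by
  obtain ⟨f, hf⟩ := h
  exact ⟨LinearEquiv.ofBijective (tl ρ σ f.toLinearMap hf)
    ⟨tl_inj hf f.injective, tl_surj hf f.surjective⟩⟩

end reps

theorem t_RR : S_RR := by
  intro hTT hS G _
  have hF := (hTT (MonoidAlgebra ℤ G)).1
  have hP := (hTT (MonoidAlgebra ℤ G)).2
  have hSP := hS (MonoidAlgebra ℤ G)
  refine ⟨?_, ?_, ?_, ?_, ?_, ?_, ?_, ?_, ?_, ?_, ?_, ?_, ?_⟩
  · intro V W _ _ ρ σ h hV
    obtain ⟨e⟩ := iso_of h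
    exact ff_iso hF e hV
  · intro V W _ _ ρ σ h hV
    obtain ⟨e⟩ := iso_of h
    exact fp_iso hP e hV
  · intro V _ ρ h
    have : Subsingleton ρ.asModule := h
    exact ff_zero _
  · intro V _ ρ h
    have : Subsingleton ρ.asModule := h
    exact fp_zero _
  · rintro A B D _ _ _ α β δ ⟨f, g, hf, hg, h1, h2, h3⟩
    exact hF _ _ _ (tl α β f hf) (tl β δ g hg) (tl_inj hf h1) (tl_surj hg h2) (tl_exact hf hg h3)
  · rintro A B D _ _ _ α β δ ⟨f, g, hf, hg, h1, h2, h3⟩
    exact hP _ _ _ (tl α β f hf) (tl β δ g hg) (tl_inj hf h1) (tl_surj hg h2) (tl_exact hf hg h3)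
  · intro V _ ρ h
    exact hSP.refl _ h
  · rintro V W _ _ ρ σ ⟨P, iP, jP, h1, h2, h3⟩
    exact ⟨P, iP, jP, h1, h3, h2⟩
  · intro V W U _ _ _ ρ σ τ h h'
    exact hSP.trans _ _ _ h h'
  · intro V W _ _ ρ σ h h'
    exact hSP.transfer _ _ h h'
  · intro V W _ _ ρ σ h hV
    obtain ⟨e⟩ := iso_of h
    obtain ⟨P, iP, jP, h1, h2, h3⟩ := hSP.refl ρ.asModule hV
    exact ⟨P, iP, jP, h1, h2, ff_iso hF (e.prodCongr (LinearEquiv.refl _ P)) h3⟩
  · rintro A B D A' B' D' _ _ _ _ _ _ α β δ α' β' δ' ⟨f, g, hf, hg, h1, h2, h3⟩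
      ⟨f', g', hf', hg', h1', h2', h3'⟩ hA hD
    exact hSP.two _ _ _ _ _ _ (tl α β f hf) (tl β δ g hg) (tl α' β' f' hf') (tl β' δ' g' hg')
      (tl_inj hf h1) (tl_surj hg h2) (tl_exact hf hg h3) (tl_inj hf' h1') (tl_surj hg' h2')
      (tl_exact hf' hg' h3') hA hD
  · rintro A B D B' _ _ _ _ α β δ β' ⟨f, g, hf, hg, h1, h2, h3⟩
      ⟨f', g', hf', hg', h1', h2', h3'⟩ hA hD
    exact hSP.swap _ _ _ _ (tl α β f hf) (tl β δ g hg) (tl δ β' f' hf') (tl β' α g' hg')
      (tl_inj hf h1) (tl_surj hg h2) (tl_exact hf hg h3) (tl_inj hf' h1') (tl_surj hg' h2')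
      (tl_exact hf' hg' h3') hA hD

end Pool.Agent.K1H74.HE
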